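import Mathlib
import Pool.Agent.H17.SHD

set_option autoImplicit false

namespace Pool.Agent.Results.MP_f85c9e_gt.NotDescend
open Set Filter Topology Pool.Agent.H17.Div

theorem shd_pr : SHD (PR D) := by
  classical
  intro U hU hne
  choose G hG using hne
  choose V hV hGV hVU using fun n => hU n (G n) (hG n)
  choose b hb using fun n => (G n).2.2
  choose W hW hWV using fun n => isOpen_induced_iff.1 (hV n)
  choose F hF hFW using fun n => basic_nhds (x := (b n).1) ((hW n).mem_nhds
    (show b n ∈ Subtype.val ⁻¹' W n from hWV n ▸ hGV n (hb n)))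
  obtain ⟨r, hr⟩ := fresh (countable_iUnion fun n => (hF n).countable)
  have h2 : ∀ n A, (A, r) ∉ F n := fun n A h => hr A (mem_iUnion.2 ⟨n, h⟩)
  let y : ℕ → ℕ → D := fun n j => ⟨fun i => if i ∈ F n then (b n).1 i else decide (i = ({j}, r)),
    ((hF n).insert ({j}, r)).countable.mono fun i hi => by
      by_cases h : i ∈ F n
      · exact Or.inr h
      · exact Or.inl (by simpa [h] using hi)⟩
  refine ⟨fun n => ⟨(G n).1 ∪ y n '' Iic n, (G n).2.1.union ((finite_Iic n).image _),
    (G n).2.2.mono subset_union_left⟩, fun n => hVU n _ subset_union_left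
      (union_subset (hGV n) ?_), fun φ hφ H hH => ?_⟩
  · rintro _ ⟨j, -, rfl⟩
    rw [← hWV n]
    exact hFW n _ fun i hi => if_pos hi
  · let P : ℕ → Set D := fun j => {x | x.1 ({j}, r) = true ∧ ∀ k < j, x.1 ({k}, r) = false}
    have hc : ∀ i : I, ∀ c, IsClosed {x : D | x.1 i = c} := fun i c =>
      isClosed_eq ((continuous_apply i).comp continuous_subtype_val) continuous_const
    have hP : ∀ j, IsClosed (P j) := fun j => by
      have : P j = {x : D | x.1 ({j}, r) = true} ∩ ⋂ k < j, {x : D | x.1 ({k}, r) = false} := by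
        ext x; simp [P]
      rw [this]
      exact (hc _ _).inter (isClosed_biInter fun k _ => hc _ _)
    have hj : ∃ j, H.1 ⊆ (P j)ᶜ := by
      by_contra hn
      push Not at hn
      choose z hz hzP using fun j => not_subset.1 (hn j)
      refine infinite_of_injective_forall_mem (fun j k e => ?_) hz H.2.1
      have a := not_not.1 (hzP j)
      have b := not_not.1 (hzP k)
      rw [e] at a
      by_contra hjk
      rcases lt_or_gt_of_ne hjk with h | h
      · exact absurd (a.1.symm.trans (b.2 j h)) (by simp)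
      · exact absurd (b.1.symm.trans (a.2 k h)) (by simp)
    obtain ⟨j, hj⟩ := hj
    obtain ⟨n, h3, h4⟩ := ((pr_ev hH (hP j).isOpen_compl hj).and (eventually_ge_atTop j)).exists
    refine h3 (Or.inr ⟨j, h4.trans (hφ.id_le n), rfl⟩) ⟨?_, fun k hk => ?_⟩
    · simp [y, h2]
    · simp [y, h2, hk.ne]

theorem result : ∃ (X : Type) (_ : TopologicalSpace X),
    T35Space X ∧ SHD (PR X) ∧ ¬ SHD X :=
  ⟨D, inferInstance, inferInstance, shd_pr, not_shd_D⟩

end Pool.Agent.Results.MP_f85c9e_gt.NotDescend
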